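import Pool.Agent.Helper40.IZ.Stmts

/-! Row HMS: an invariant measure of full support on a compact metric space. -/

open Finset Filter MeasureTheory Topology
open scoped ComplexConjugate InnerProductSpace ENNReal

namespace Pool.Agent.Helper40.IZ

theorem st_HMS (hHMG : ST_HMG) : ST_HMS := by
  intro M _ _ _ _ _
  obtain ⟨t, htg, hc, ht2, hev⟩ := hHMG M
  letI : TopologicalSpace (M ≃ᵢ M) := t
  haveI := htg
  haveI := hc
  haveI := ht2
  letI : MeasurableSpace (M ≃ᵢ M) := borel _
  haveI : BorelSpace (M ≃ᵢ M) := ⟨rfl⟩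
  set ν : Measure (M ≃ᵢ M) :=
    Measure.haarMeasure (⊤ : TopologicalSpace.PositiveCompacts (M ≃ᵢ M)) with hν
  have hν1 : ν Set.univ = 1 := by
    have := Measure.haarMeasure_self (K₀ := (⊤ : TopologicalSpace.PositiveCompacts (M ≃ᵢ M)))
    simpa using this
  haveI : IsProbabilityMeasure ν := ⟨hν1⟩
  set ev : ℕ → (M ≃ᵢ M) → M := fun i k => k (TopologicalSpace.denseSeq M i) with hevd
  have hevc : ∀ i, Continuous (ev i) := fun i => hev _
  have hevm : ∀ i, Measurable (ev i) := fun i => (hevc i).measurable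
  set c : ℕ → ℝ≥0∞ := fun i => (2⁻¹ : ℝ≥0∞) ^ (i + 1) with hcd
  have hcsum : ∑' i, c i = 1 := by
    have h1 : ∀ i, c i = 2⁻¹ * (2⁻¹ : ℝ≥0∞) ^ i := fun i => by
      rw [hcd]; simp only; rw [pow_succ, mul_comm]
    simp_rw [h1]
    rw [ENNReal.tsum_mul_left, ENNReal.tsum_geometric, ENNReal.one_sub_inv_two, inv_inv]
    exact ENNReal.inv_mul_cancel (by norm_num) (by norm_num)
  set μ : Measure M := Measure.sum fun i => c i • Measure.map (ev i) ν with hμ
  refine ⟨μ, ⟨?_⟩, ?_, ?_⟩
  · rw [hμ, Measure.sum_apply _ MeasurableSet.univ]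
    have h1 : ∀ i, (c i • Measure.map (ev i) ν) Set.univ = c i := fun i => by
      rw [Measure.smul_apply, Measure.map_apply (hevm i) MeasurableSet.univ, Set.preimage_univ,
        hν1, smul_eq_mul, mul_one]
    simp_rw [h1]
    exact hcsum
  · intro U hU hUn
    obtain ⟨i, hi⟩ := (TopologicalSpace.denseRange_denseSeq M).exists_mem_open hU hUn
    have h1 : 0 < (c i • Measure.map (ev i) ν) U := by
      rw [Measure.smul_apply, Measure.map_apply (hevm i) hU.measurableSet, smul_eq_mul]
      refine ENNReal.mul_pos (by rw [hcd]; simp) ?_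
      have hop : IsOpen (ev i ⁻¹' U) := hU.preimage (hevc i)
      exact (hop.measure_pos ν ⟨1, hi⟩).ne'
    exact h1.trans_le (Measure.le_sum (fun i => c i • Measure.map (ev i) ν) i U)
  · intro k
    have hkm : Measurable (k : M → M) := k.continuous.measurable
    refine ⟨hkm, ?_⟩
    rw [hμ, Measure.map_sum hkm.aemeasurable]
    congr 1
    funext i
    rw [Measure.map_smul, Measure.map_map hkm (hevm i)]
    congr 1
    have h1 : (k : M → M) ∘ ev i = ev i ∘ fun k' => k * k' := by
      funext k'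
      rfl
    have hmul : Measurable fun k' : M ≃ᵢ M => k * k' := (continuous_const_mul k).measurable
    rw [h1, ← Measure.map_map (hevm i) hmul, map_mul_left_eq_self]

end Pool.Agent.Helper40.IZ
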