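import Pool.Agent.Helper40.IZ.Stmts

/-! Row SPC: the spectral theorem for a compact symmetric operator, on a compact set. -/

open Finset Filter MeasureTheory Topology
open scoped ComplexConjugate InnerProductSpace

namespace Pool.Agent.Helper40.IZ

theorem st_SPC : ST_SPC := by
  intro H _ _ _ P hP hS K hK η hη
  set Eg : ℂ → Submodule ℂ H := fun μ => Module.End.eigenspace (P : Module.End ℂ H) μ with hEg
  have hbot : (⨆ μ, Eg μ)ᗮ = ⊥ :=
    ContinuousLinearMap.orthogonalComplement_iSup_eigenspaces_eq_bot hP hS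
  have hdense : Dense ((⨆ μ, Eg μ : Submodule ℂ H) : Set H) := by
    rw [Submodule.dense_iff_topologicalClosure_eq_top, Submodule.topologicalClosure_eq_top_iff]
    exact hbot
  -- a finite set of points of the sum of the eigenspaces near `K`
  obtain ⟨t, htW, htK⟩ : ∃ t : Finset H, (∀ w ∈ t, w ∈ (⨆ μ, Eg μ : Submodule ℂ H)) ∧
      ∀ f ∈ K, ∃ w ∈ t, ‖f - w‖ ≤ η := by
    have hc : ∀ f ∈ K, ∃ w, w ∈ (⨆ μ, Eg μ : Submodule ℂ H) ∧ f ∈ Metric.ball w η := by
      intro f _
      obtain ⟨w, hw, hfw⟩ := Metric.dense_iff.1 hdense f η hη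
      exact ⟨w, hfw, by rw [Metric.mem_ball, dist_comm]; exact hw⟩
    obtain ⟨t, ht⟩ := hK.elim_finite_subcover (fun w : (⨆ μ, Eg μ : Submodule ℂ H) =>
      Metric.ball (w : H) η) (fun _ => Metric.isOpen_ball) (fun f hf => by
        obtain ⟨w, hw, hfw⟩ := hc f hf
        exact Set.mem_iUnion.2 ⟨⟨w, hw⟩, hfw⟩)
    classical
    refine ⟨t.image (fun w : (⨆ μ, Eg μ : Submodule ℂ H) => (w : H)), ?_, ?_⟩
    · intro w hw
      obtain ⟨w', _, rfl⟩ := Finset.mem_image.1 hw
      exact w'.2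
    · intro f hf
      obtain ⟨w, hw⟩ := Set.mem_iUnion.1 (ht hf)
      obtain ⟨hwt, hfw⟩ := Set.mem_iUnion.1 hw
      refine ⟨w, Finset.mem_image.2 ⟨w, hwt, rfl⟩, ?_⟩
      rw [Metric.mem_ball, dist_eq_norm] at hfw
      exact hfw.le
  -- finitely many eigenvalues
  have hfin : ∀ w ∈ t, ∃ s : Finset ℂ, w ∈ ⨆ μ ∈ s, Eg μ := fun w hw =>
    (Submodule.mem_iSup_iff_exists_finset).1 (htW w hw)
  choose! s hs using hfin
  classical
  set S0 : Finset ℂ := (t.biUnion s).erase 0 with hS0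
  set V : Submodule ℂ H := ⨆ μ ∈ S0, Eg μ with hV
  have hEV : ∀ μ ∈ S0, Eg μ ≤ V := fun μ hμ => le_iSup₂_of_le μ hμ le_rfl
  have hfd : FiniteDimensional ℂ V := by
    have : ∀ μ : {μ // μ ∈ S0}, FiniteDimensional ℂ (Eg μ) := fun μ =>
      ContinuousLinearMap.finite_dimensional_eigenspace hP μ (Finset.ne_of_mem_erase μ.2)
    have e : V = ⨆ μ : {μ // μ ∈ S0}, Eg μ := by rw [hV, iSup_subtype']
    rw [e]
    exact Submodule.finiteDimensional_iSup _
  refine ⟨V, hfd, ?_, ?_, ?_⟩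
  · -- `P` maps `V` onto `V`
    have : V ≤ V.map (P : H →ₗ[ℂ] H) := by
      refine iSup₂_le fun μ hμ v hv => ?_
      have hμ0 : μ ≠ 0 := Finset.ne_of_mem_erase hμ
      refine Submodule.mem_map.2 ⟨μ⁻¹ • v, V.smul_mem _ (hEV μ hμ hv), ?_⟩
      have : (P : Module.End ℂ H) v = μ • v := Module.End.mem_eigenspace_iff.1 hv
      rw [map_smul]
      erw [this]
      rw [smul_smul, inv_mul_cancel₀ hμ0, one_smul]
    intro v hv
    obtain ⟨v', hv', h⟩ := Submodule.mem_map.1 (this hv)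
    exact ⟨v', hv', h⟩
  · intro U hU
    have : V ≤ V.comap (U : H →ₗ[ℂ] H) := by
      refine iSup₂_le fun μ hμ v hv => ?_
      refine Submodule.mem_comap.2 (hEV μ hμ ?_)
      have h1 : P v = μ • v := Module.End.mem_eigenspace_iff.1 hv
      refine Module.End.mem_eigenspace_iff.2 ?_
      show P (U v) = μ • U v
      rw [← hU v, h1, map_smul]
    exact fun v hv => this hv
  · intro f hf
    obtain ⟨w, hwt, hfw⟩ := htK f hf
    have hw1 : w ∈ V ⊔ Eg 0 := by
      have : (⨆ μ ∈ s w, Eg μ) ≤ V ⊔ Eg 0 := by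
        refine iSup₂_le fun μ hμ => ?_
        by_cases h0 : μ = 0
        · subst h0; exact le_sup_right
        · exact (hEV μ (Finset.mem_erase.2 ⟨h0, Finset.mem_biUnion.2 ⟨w, hwt, hμ⟩⟩)).trans
            le_sup_left
      exact this (hs w hwt)
    obtain ⟨v, hv, h, hh, rfl⟩ := Submodule.mem_sup.1 hw1
    have hPh : P h = 0 := by
      have : P h = (0 : ℂ) • h := Module.End.mem_eigenspace_iff.1 hh
      rw [this, zero_smul]
    -- `h` is orthogonal to `V`
    have hort : ∀ x ∈ V, (inner ℂ x h : ℂ) = 0 := by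
      have hle : V ≤ (ℂ ∙ h)ᗮ := by
        refine iSup₂_le fun μ hμ x hx => ?_
        rw [Submodule.mem_orthogonal_singleton_iff_inner_left]
        have hfam := hS.orthogonalFamily_eigenspaces (Finset.ne_of_mem_erase hμ)
          ⟨x, hx⟩ ⟨h, hh⟩
        exact hfam
      intro x hx
      exact (Submodule.mem_orthogonal_singleton_iff_inner_left).1 (hle hx)
    set g : H := (V.starProjection f) with hg
    have hgV : g ∈ V := Submodule.starProjection_apply_mem _ _
    have hgo : ∀ x ∈ V, (inner ℂ x (f - g) : ℂ) = 0 := by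
      intro x hx
      have := Submodule.sub_starProjection_mem_orthogonal (K := V) f
      exact (Submodule.mem_orthogonal _ _).1 this x hx
    refine ⟨g, hgV, h, hPh, hgo, ?_⟩
    -- Pythagoras
    have e1 : f - (v + h) = (f - g - h) + (g - v) := by abel
    have e2 : (inner ℂ (f - g - h) (g - v) : ℂ) = 0 := by
      have hx : g - v ∈ V := V.sub_mem hgV hv
      rw [inner_sub_left, ← inner_conj_symm, hgo _ hx, ← inner_conj_symm (𝕜 := ℂ) h, hort _ hx]
      simp
    have e3 : ‖f - g - h‖ ^ 2 ≤ ‖f - (v + h)‖ ^ 2 := by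
      rw [e1]
      have := norm_add_sq_eq_norm_sq_add_norm_sq_of_inner_eq_zero (𝕜 := ℂ) (f - g - h) (g - v) e2
      nlinarith [sq_nonneg ‖g - v‖, this]
    have e4 : ‖f - g - h‖ ≤ ‖f - (v + h)‖ :=
      (pow_le_pow_iff_left₀ (norm_nonneg _) (norm_nonneg _) two_ne_zero).1 e3
    exact e4.trans hfw

end Pool.Agent.Helper40.IZ
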